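import Pool.Agent.H234.ST.Defs

/-!
# A Vitali covering estimate for the Hausdorff measure of dimension one
-/

set_option autoImplicit false

namespace Pool.Agent.H196.ST

open MeasureTheory Measure Set Filter Metric Topology
open scoped ENNReal NNReal
open Pool.Agent.H234.ST

theorem ediam_ball_le (x : ℂ) (r : ℝ) : ediam (closedBall x r) ≤ ENNReal.ofReal (2 * r) := by
  rcases le_or_gt 0 r with h | h
  · refine ediam_le fun y hy z hz => ?_
    rw [edist_dist]
    refine ENNReal.ofReal_le_ofReal ?_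
    have h1 := mem_closedBall.1 hy
    have h2 := mem_closedBall'.1 hz
    linarith [dist_triangle y x z]
  · rw [closedBall_eq_empty.2 h]
    simp

/-- Coverings by small sets with a good sum of diameters. -/
theorem cov (A U : Set ℂ) (ν : ℕ → Measure ℂ) (θ : ℝ) (M : ℝ≥0∞) (hθ : 0 < θ) (hU : IsOpen U)
    (hAU : A ⊆ U) (hM : M ≠ ⊤) (hf : ∃ᶠ k in atTop, ν k U ≤ M)
    (hA : ∀ x ∈ A, ∀ ρ : ℝ, 0 < ρ → ∃ r : ℝ, 0 < r ∧ r < ρ ∧
      ∀ᶠ k in atTop, ENNReal.ofReal (θ * (2 * r)) ≤ ν k (closedBall x r))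
    (σ : ℝ) (hσ : 0 < σ) (ε : ℝ≥0∞) (hε : 0 < ε) :
    ∃ (u : Set (ℂ × ℝ)) (t : ↥u → Set ℂ), u.Countable ∧ (∀ i, ediam (t i) ≤ ENNReal.ofReal (10 * σ)) ∧
      A ⊆ ⋃ i, t i ∧ ∑' i, ediam (t i) ≤ M / ENNReal.ofReal θ + ε := by
  have hθ' : ENNReal.ofReal θ ≠ 0 := by simpa using hθ
  set T : Set (ℂ × ℝ) := {p | p.1 ∈ A ∧ 0 < p.2 ∧ p.2 < σ ∧ closedBall p.1 p.2 ⊆ U ∧
    ∀ᶠ k in atTop, ENNReal.ofReal (θ * (2 * p.2)) ≤ ν k (closedBall p.1 p.2)} with hT
  obtain ⟨u, huT, hdis, hcov⟩ := Vitali.exists_disjoint_subfamily_covering_enlargement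
    (fun p : ℂ × ℝ => closedBall p.1 p.2) T (fun p => p.2) 2 one_lt_two
    (fun a ha => ha.2.1.le) σ (fun a ha => ha.2.2.1.le)
    (fun a ha => ⟨a.1, mem_closedBall_self ha.2.1.le⟩)
  have huc : u.Countable := by
    refine hdis.countable_of_nonempty_interior fun p hp => ?_
    refine ⟨p.1, ?_⟩
    have : ball p.1 p.2 ⊆ interior (closedBall p.1 p.2) := ball_subset_interior_closedBall
    exact this (mem_ball_self (huT hp).2.1)
  -- the sum of the diameters
  have hfin : ∀ F : Finset ↥u, ∑ b ∈ F, ENNReal.ofReal (θ * (2 * b.1.2)) ≤ M := by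
    intro F
    have hev : ∀ᶠ k in atTop, ∀ b ∈ F,
        ENNReal.ofReal (θ * (2 * b.1.2)) ≤ ν k (closedBall b.1.1 b.1.2) := by
      rw [Filter.eventually_all_finset]
      intro b _
      exact (huT b.2).2.2.2.2
    obtain ⟨k, hk1, hk2⟩ := (hf.and_eventually hev).exists
    calc ∑ b ∈ F, ENNReal.ofReal (θ * (2 * b.1.2))
        ≤ ∑ b ∈ F, ν k (closedBall b.1.1 b.1.2) := Finset.sum_le_sum hk2
      _ = ν k (⋃ b ∈ F, closedBall b.1.1 b.1.2) := by
          rw [measure_biUnion_finset]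
          · intro b _ b' _ hbb
            exact hdis b.2 b'.2 (fun h => hbb (Subtype.ext h))
          · intro b _
            exact isClosed_closedBall.measurableSet
      _ ≤ ν k U := measure_mono (iUnion₂_subset fun b _ => (huT b.2).2.2.2.1)
      _ ≤ M := hk1
  have hsum : ∑' b : ↥u, ENNReal.ofReal (θ * (2 * b.1.2)) ≤ M := by
    rw [ENNReal.tsum_eq_iSup_sum]
    exact iSup_le hfin
  have hsum2 : ENNReal.ofReal θ * ∑' b : ↥u, ENNReal.ofReal (2 * b.1.2) ≤ M := by
    rw [← ENNReal.tsum_mul_left]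
    refine le_trans (le_of_eq ?_) hsum
    refine tsum_congr fun b => ?_
    rw [ENNReal.ofReal_mul hθ.le]
  set S : ℝ≥0∞ := ∑' b : ↥u, ENNReal.ofReal (2 * b.1.2) with hS
  have hS1 : S ≤ M / ENNReal.ofReal θ := by
    rw [ENNReal.le_div_iff_mul_le (Or.inl hθ') (Or.inl ENNReal.ofReal_ne_top), mul_comm]
    exact hsum2
  have hStop : S ≠ ⊤ := ne_top_of_le_ne_top (ENNReal.div_ne_top hM hθ') hS1
  -- the tail
  have htail := ENNReal.tendsto_tsum_compl_atTop_zero hStop
  have htail' : ∀ᶠ F : Finset ↥u in atTop,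
      ∑' b : {b // b ∉ F}, ENNReal.ofReal (2 * b.1.1.2) < ε / 5 := by
    refine htail.eventually (gt_mem_nhds ?_)
    exact ENNReal.div_pos hε.ne' (by norm_num)
  obtain ⟨F, hF⟩ := htail'.exists
  classical
  refine ⟨u, fun b => if b ∈ F then closedBall b.1.1 b.1.2 else closedBall b.1.1 (5 * b.1.2), huc,
    ?_, ?_, ?_⟩
  · intro b
    have hb := huT b.2
    show ediam (if b ∈ F then closedBall b.1.1 b.1.2 else closedBall b.1.1 (5 * b.1.2)) ≤ _
    split_ifs
    · refine (ediam_ball_le _ _).trans ?_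
      exact ENNReal.ofReal_le_ofReal (by linarith [hb.2.1, hb.2.2.1])
    · refine (ediam_ball_le _ _).trans ?_
      exact ENNReal.ofReal_le_ofReal (by linarith [hb.2.1, hb.2.2.1])
  · intro y hy
    by_cases hyC : y ∈ ⋃ b ∈ F, closedBall b.1.1 b.1.2
    · obtain ⟨b, hbF, hyb⟩ := mem_iUnion₂.1 hyC
      refine mem_iUnion.2 ⟨b, ?_⟩
      rw [if_pos hbF]
      exact hyb
    · have hclosed : IsClosed (⋃ b ∈ F, closedBall b.1.1 b.1.2) :=
        isClosed_biUnion_finset fun b _ => isClosed_closedBall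
      have hopen : IsOpen (U ∩ (⋃ b ∈ F, closedBall b.1.1 b.1.2)ᶜ) := hU.inter hclosed.isOpen_compl
      obtain ⟨ρ, hρ, hρs⟩ := Metric.isOpen_iff.1 hopen y ⟨hAU hy, hyC⟩
      obtain ⟨r, hr0, hr1, hr2⟩ := hA y hy (min ρ σ) (lt_min hρ hσ)
      have hsub : closedBall y r ⊆ U ∩ (⋃ b ∈ F, closedBall b.1.1 b.1.2)ᶜ :=
        (closedBall_subset_ball (hr1.trans_le (min_le_left _ _))).trans hρs
      have hmem : (y, r) ∈ T := ⟨hy, hr0, hr1.trans_le (min_le_right _ _),
        hsub.trans inter_subset_left, hr2⟩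
      obtain ⟨b, hbu, hne, hle⟩ := hcov (y, r) hmem
      simp only at hne hle
      refine mem_iUnion.2 ⟨⟨b, hbu⟩, ?_⟩
      have hbF : (⟨b, hbu⟩ : ↥u) ∉ F := by
        intro hbF
        obtain ⟨z, hz1, hz2⟩ := hne
        exact (hsub hz1).2 (mem_iUnion₂.2 ⟨⟨b, hbu⟩, hbF, hz2⟩)
      rw [if_neg hbF]
      have hd := dist_le_add_of_nonempty_closedBall_inter_closedBall hne
      have hb0 := (huT hbu).2.1
      rw [mem_closedBall]
      linarith
  · calc ∑' b : ↥u, ediam (if b ∈ F then closedBall b.1.1 b.1.2 else closedBall b.1.1 (5 * b.1.2))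
        ≤ ∑' b : ↥u, (ENNReal.ofReal (2 * b.1.2) +
            ({b | b ∉ F} : Set ↥u).indicator (fun b => 5 * ENNReal.ofReal (2 * b.1.2)) b) := by
          refine ENNReal.tsum_le_tsum fun b => ?_
          have hb := huT b.2
          split_ifs with h
          · exact (ediam_ball_le _ _).trans le_self_add
          · refine (ediam_ball_le _ _).trans ?_
            rw [indicator_of_mem (show b ∈ {b | b ∉ F} from h)]
            refine le_trans (le_of_eq ?_) le_add_self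
            rw [← ENNReal.ofReal_ofNat, ← ENNReal.ofReal_mul (by norm_num)]
            congr 1
            ring
      _ = S + 5 * ∑' b : {b // b ∉ F}, ENNReal.ofReal (2 * b.1.1.2) := by
          rw [ENNReal.tsum_add, ← tsum_subtype, ENNReal.tsum_mul_left]
          rfl
      _ ≤ M / ENNReal.ofReal θ + ε := by
          refine add_le_add hS1 ?_
          calc 5 * ∑' b : {b // b ∉ F}, ENNReal.ofReal (2 * b.1.1.2) ≤ 5 * (ε / 5) := by gcongr
            _ = ε := ENNReal.mul_div_cancel (by norm_num) (by norm_num)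

theorem cover : S_Cover := by
  intro A U ν θ M hθ hU hAU hf hA
  by_cases hM : M = ⊤
  · rw [hM]; exact le_top
  have hθ' : ENNReal.ofReal θ ≠ 0 := by simpa using hθ
  suffices h : μH[1] A ≤ M / ENNReal.ofReal θ by
    rw [mul_comm]
    exact (ENNReal.le_div_iff_mul_le (Or.inl hθ') (Or.inl ENNReal.ofReal_ne_top)).1 h
  refine ENNReal.le_of_forall_pos_le_add fun ε hε _ => ?_
  have hε' : (0 : ℝ≥0∞) < (ε : ℝ≥0∞) := by exact_mod_cast hε
  choose u t hc hd hs ht using fun n : ℕ => cov A U ν θ M hθ hU hAU hM hf hA (1 / ((n : ℝ) + 1))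
    (by positivity) (ε : ℝ≥0∞) hε'
  have : ∀ n, Countable ↥(u n) := fun n => (hc n).to_subtype
  have hr : Tendsto (fun n : ℕ => ENNReal.ofReal (10 * (1 / ((n : ℝ) + 1)))) atTop (𝓝 0) := by
    have h1 : Tendsto (fun n : ℕ => 10 * (1 / ((n : ℝ) + 1))) atTop (𝓝 (10 * 0)) :=
      tendsto_one_div_add_atTop_nhds_zero_nat.const_mul 10
    have h2 := ENNReal.tendsto_ofReal h1
    simpa using h2
  have key := hausdorffMeasure_le_liminf_tsum 1 A (l := atTop)
    (fun n : ℕ => ENNReal.ofReal (10 * (1 / ((n : ℝ) + 1)))) hr t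
    (Eventually.of_forall fun n i => hd n i) (Eventually.of_forall hs)
  refine key.trans ?_
  have h3 : ∀ n, ∑' i, ediam (t n i) ^ (1 : ℝ) ≤ M / ENNReal.ofReal θ + ε := by
    intro n
    simp only [ENNReal.rpow_one]
    exact ht n
  calc liminf (fun n => ∑' i, ediam (t n i) ^ (1 : ℝ)) atTop
      ≤ liminf (fun _ : ℕ => M / ENNReal.ofReal θ + ε) atTop :=
        liminf_le_liminf (Eventually.of_forall h3)
    _ = M / ENNReal.ofReal θ + ε := liminf_const _

end Pool.Agent.H196.ST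

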